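import Pool.Agent.H114.RS.Final755

/-!
# Monochromatic progressions in Rudin–Shapiro with difference below `2 ^ k - 1`

For every `k ≥ 5` and `1 ≤ d ≤ 2 ^ k - 2` every monochromatic arithmetic progression of difference
`d` in the Rudin–Shapiro sequence has at most `2 ^ (k - 1)` terms.

Proof. Let `d` be odd, `N = 2 ^ (k - 2)`, `H = N / 2` and let `n + j d`, `j ≤ 2 N`, be monochromatic.
Comparing the terms `j` and `j + N` shows, for `P_j = ⌊(n + j d) / H⌋` and `Q_j = ⌊P_j / 2⌋`, that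
`r (Q_j) + r (Q_j + d) ≡ P_j mod 2` for all `j ≤ N`. A search over all pairs of windows of the sequence
of opposite parity (run bit-parallel in the kernel) excludes all slopes `d / H` in `(4, 8)` except
near `16 / 3` and near `8`; there an explicit word of length `18` (resp. `12`) which must occur is
excluded. Small differences are checked directly, even ones are reduced to odd ones.
-/

set_option autoImplicit false

namespace Pool.Agent.Results.MP_c755aa_co.DifferencesBelow

/-- `e_11 (n)`: the number of (possibly overlapping) occurrences of the block `11` in the binary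
expansion of `n`, i.e. the number of pairs of adjacent binary digits of `n` which are both `1`. -/
def e11 (n : ℕ) : ℕ := ((Nat.digits 2 n).zip (Nat.digits 2 n).tail).count (1, 1)

/-- `A_11 (n, d) = inf {l ≥ 1 : e_11 (n + l d) ≢ e_11 (n) mod 2}` in `ℕ ∪ {∞}` (`inf ∅ = ∞`). -/
noncomputable def lenAt (n d : ℕ) : ℕ∞ :=
  ⨅ (l : ℕ) (_ : 1 ≤ l ∧ e11 (n + l * d) % 2 ≠ e11 n % 2), (l : ℕ∞)

/-- `A_11 (d) = sup_n A_11 (n, d)` in `ℕ ∪ {∞}`. -/
noncomputable def maxLen (d : ℕ) : ℕ∞ := ⨆ n : ℕ, lenAt n d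

lemma maxLen_le {d D : ℕ} (h : ∀ n, ¬ Pool.Agent.H114.RS.Mono n d (D + 1)) :
    maxLen d ≤ (D : ℕ∞) := by
  refine iSup_le fun n => ?_
  have h1 := h n
  unfold Pool.Agent.H114.RS.Mono at h1
  push Not at h1
  obtain ⟨j, hj, hne⟩ := h1
  have hj1 : 1 ≤ j := by
    by_contra hcon
    have : j = 0 := by omega
    subst this
    simp at hne
  have hne' : e11 (n + j * d) % 2 ≠ e11 n % 2 := fun heq =>
    hne ((Pool.Agent.H114.RS.mod_eq_iff_rb _ _).1 heq)
  calc lenAt n d ≤ (j : ℕ∞) :=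
        iInf₂_le (f := fun (l : ℕ) (_ : 1 ≤ l ∧ e11 (n + l * d) % 2 ≠ e11 n % 2) => (l : ℕ∞))
          j ⟨hj1, hne'⟩
    _ ≤ (D : ℕ∞) := by
        rw [Nat.cast_le]; omega

/-- **Question 1 for the Rudin–Shapiro sequence.** -/
theorem result (k : ℕ) (hk : 5 ≤ k) (d : ℕ) (h1 : 1 ≤ d) (h2 : d ≤ 2 ^ k - 2) :
    maxLen d ≤ 2 ^ (k - 1) := by
  have := maxLen_le (d := d) (D := 2 ^ (k - 1)) (Pool.Agent.H114.RS.bound k hk d h1 h2)
  rwa [Nat.cast_pow, Nat.cast_ofNat] at this

end Pool.Agent.Results.MP_c755aa_co.DifferencesBelow
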